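import Pool.Agent.L5helper45.IN.Vary
import Pool.Agent.H617R3.AP.Scale

set_option autoImplicit false

/-! # The hypergraph of progressions in an interval and its supersaturation (helper45) -/

namespace Pool.Agent.L5helper45.IN

open Finset
open Pool.Agent.H617R3.AP Pool.Agent.TH106.AP3
open Pool.Agent.L5helper45.CT (HG IndE)
open Pool.Agent.L5helper45.WC (SSy)

/-- the points of a progression -/
def edge (k : ℕ) (z : ℕ × ℕ) : Finset ℕ := (range k).image fun i => z.1 + i * z.2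

/-- the hypergraph of the progressions in `{1, …, N}` -/
def EI (k N : ℕ) : Finset (Finset ℕ) := (aps k N (Icc 1 N)).image (edge k)

theorem two_pts {a d a' d' i j : ℕ} (hij : i ≠ j) (h1 : a + i * d = a' + i * d')
    (h2 : a + j * d = a' + j * d') : a = a' ∧ d = d' := by
  have h3 : ((i : ℤ) - j) * ((d : ℤ) - d') = 0 := by
    have e1 : (a : ℤ) + i * d = a' + i * d' := by exact_mod_cast h1
    have e2 : (a : ℤ) + j * d = a' + j * d' := by exact_mod_cast h2
    linarith
  have h4 : (d : ℤ) = d' := by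
    rcases mul_eq_zero.1 h3 with h | h
    · exact absurd (by exact_mod_cast sub_eq_zero.1 h) hij
    · linarith
  have h5 : d = d' := by exact_mod_cast h4
  subst h5
  exact ⟨by omega, rfl⟩

theorem HG_EI {k : ℕ} (hk : 2 ≤ k) (N : ℕ) : HG (EI k N) k ((k : ℝ) ^ 2) := by
  classical
  constructor
  · intro e he
    obtain ⟨z, hz, rfl⟩ := mem_image.1 he
    have hz2 := mem_Icc.1 (mem_aps'.1 hz).1.2
    unfold edge
    rw [card_image_of_injOn, card_range]
    intro i _ j _ hij
    simp only at hij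
    have : i * z.2 = j * z.2 := by omega
    exact Nat.eq_of_mul_eq_mul_right (by omega) this
  · intro u v huv
    have h1 : (EI k N).filter (fun e => u ∈ e ∧ v ∈ e) ⊆
        (range k ×ˢ range k).biUnion fun w => ((aps k N (Icc 1 N)).filter
          fun z => z.1 + w.1 * z.2 = u ∧ z.1 + w.2 * z.2 = v).image (edge k) := by
      intro e he
      rw [mem_filter] at he
      obtain ⟨⟨z, hz, rfl⟩, hu, hv⟩ := And.intro (mem_image.1 he.1) he.2
      obtain ⟨i, hi, hiu⟩ := mem_image.1 hu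
      obtain ⟨j, hj, hjv⟩ := mem_image.1 hv
      rw [mem_biUnion]
      exact ⟨(i, j), mem_product.2 ⟨hi, hj⟩, mem_image.2 ⟨z, mem_filter.2 ⟨hz, hiu, hjv⟩, rfl⟩⟩
    have h2 : ((EI k N).filter (fun e => u ∈ e ∧ v ∈ e)).card ≤ k * k := by
      refine (card_le_card h1).trans (card_biUnion_le.trans ?_)
      have h3 : ∀ w ∈ range k ×ˢ range k, (((aps k N (Icc 1 N)).filter
          fun z => z.1 + w.1 * z.2 = u ∧ z.1 + w.2 * z.2 = v).image (edge k)).card ≤ 1 := by
        intro w _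
        refine card_image_le.trans (card_le_one.2 ?_)
        rintro ⟨x, y⟩ hz ⟨x', y'⟩ hz'
        simp only [mem_filter] at hz hz'
        have hij : w.1 ≠ w.2 := by
          intro h
          apply huv
          rw [← hz.2.1, ← hz.2.2, h]
        obtain ⟨e3, e4⟩ := two_pts hij (hz.2.1.trans hz'.2.1.symm) (hz.2.2.trans hz'.2.2.symm)
        rw [e3, e4]
      refine (sum_le_sum h3).trans ?_
      rw [sum_const, card_product, card_range, smul_eq_mul, mul_one]
    have h3 : (((EI k N).filter (fun e => u ∈ e ∧ v ∈ e)).card : ℝ) ≤ ((k * k : ℕ) : ℝ) := by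
      exact_mod_cast h2
    refine h3.trans (le_of_eq ?_)
    push_cast
    ring

theorem edge_inj {k : ℕ} (hk : 2 ≤ k) {a d a' d' : ℕ} (hd : 1 ≤ d) (hd' : 1 ≤ d')
    (h : edge k (a, d) = edge k (a', d')) : a = a' ∧ d = d' := by
  have key : ∀ {a d a' d' : ℕ}, 1 ≤ d → 1 ≤ d' → edge k (a, d) ⊆ edge k (a', d') →
      a' ≤ a ∧ (a = a' → d' ≤ d) := by
    intro a d a' d' hd hd' hsub
    constructor
    · have h1 : a ∈ edge k (a, d) := mem_image.2 ⟨0, mem_range.2 (by omega), by simp⟩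
      obtain ⟨i, _, hi⟩ := mem_image.1 (hsub h1)
      simp only at hi
      exact hi ▸ Nat.le_add_right _ _
    · intro haa
      have h1 : a + d ∈ edge k (a, d) := mem_image.2 ⟨1, mem_range.2 (by omega), by simp⟩
      obtain ⟨i, _, hi⟩ := mem_image.1 (hsub h1)
      simp only at hi
      have h2 : i * d' = d := by omega
      have h3 : 1 ≤ i := by
        rcases Nat.eq_zero_or_pos i with h | h
        · rw [h, zero_mul] at h2
          omega
        · exact h
      nlinarith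
  obtain ⟨h1, h2⟩ := key hd hd' h.subset
  obtain ⟨h3, h4⟩ := key hd' hd h.symm.subset
  have h5 : a = a' := by omega
  exact ⟨h5, by have := h2 h5; have := h4 h5.symm; omega⟩

theorem aps_le_edges {k N : ℕ} (hk : 2 ≤ k) {B : Finset ℕ} (hB : B ⊆ Icc 1 N) :
    (aps k N B).card ≤ ((EI k N).filter (fun e => e ⊆ B)).card := by
  classical
  refine card_le_card_of_injOn (edge k) ?_ ?_
  · intro z hz
    rw [mem_coe, mem_filter]
    have hz' := mem_aps'.1 (mem_coe.1 hz)
    refine ⟨mem_image.2 ⟨z, mem_aps'.2 ⟨hz'.1, fun i hi => hB (hz'.2 i hi)⟩, rfl⟩, ?_⟩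
    intro b hb
    obtain ⟨i, hi, rfl⟩ := mem_image.1 hb
    exact hz'.2 i (mem_range.1 hi)
  · rintro ⟨a, d⟩ hz ⟨a', d'⟩ hz' h
    have e1 : 1 ≤ d := (mem_Icc.1 (mem_aps'.1 (mem_coe.1 hz)).1.2).1
    have e2 : 1 ≤ d' := (mem_Icc.1 (mem_aps'.1 (mem_coe.1 hz')).1.2).1
    obtain ⟨h1, h2⟩ := edge_inj hk e1 e2 h
    rw [h1, h2]

theorem ind_of_free {k N : ℕ} {A : Finset ℕ} (hA : APFree k A) :
    IndE (EI k N) A := by
  classical
  intro e he hsub
  obtain ⟨z, hz, rfl⟩ := mem_image.1 he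
  have hz' := mem_aps'.1 hz
  refine hA z.1 z.2 (mem_Icc.1 hz'.1.2).1 fun i hi => hsub (mem_image.2 ⟨i, mem_range.2 hi, rfl⟩)

/-- `4 √y ≤ y / (2 g) + 8 g` -/
theorem sqrt_le {y g : ℝ} (hy : 0 ≤ y) (hg : 0 < g) : 4 * √y ≤ y / (2 * g) + 8 * g := by
  have h1 : (√y) ^ 2 = y := Real.sq_sqrt hy
  have h2 : 0 ≤ (√y - 4 * g) ^ 2 := sq_nonneg _
  rw [← sub_nonneg]
  have h3 : y / (2 * g) + 8 * g - 4 * √y = (√y - 4 * g) ^ 2 / (2 * g) := by
    rw [eq_div_iff (by positivity)]
    field_simp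
    nlinarith
  rw [h3]
  positivity

theorem behrend_ratio {k : ℕ} (hk : 3 ≤ k) {g : ℝ} (hg : 0 < g) :
    ∃ K₀ : ℝ, 1 ≤ K₀ ∧ ∀ (K : ℝ) (t : ℕ), K₀ ≤ K → 1 ≤ t → (t : ℝ) ≤ 2 * K ^ g →
      32 * t ≤ K * r k t := by
  set C : ℝ := Real.log 2 / (2 * g) + 8 * g + Real.log 32 with hC
  have hlog2 : 0 < Real.log 2 := Real.log_pos (by norm_num)
  have hlog32 : 0 < Real.log 32 := Real.log_pos (by norm_num)
  have hC0 : 0 < C := by positivity
  refine ⟨Real.exp (2 * C), Real.one_le_exp (by positivity), fun K t hK ht htK => ?_⟩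
  have hK0 : 0 < K := lt_of_lt_of_le (Real.exp_pos _) hK
  have hu : 2 * C ≤ Real.log K := (Real.le_log_iff_exp_le hK0).2 hK
  have ht0 : (0 : ℝ) < t := by exact_mod_cast ht
  have hlt : Real.log t ≤ Real.log 2 + g * Real.log K := by
    have h1 := Real.log_le_log ht0 htK
    rwa [Real.log_mul (by norm_num) (Real.rpow_pos_of_pos hK0 _).ne', Real.log_rpow hK0] at h1
  have hlt0 : 0 ≤ Real.log t := Real.log_nonneg (by exact_mod_cast ht)
  have h1 : 4 * √(Real.log t) ≤ Real.log K - Real.log 32 := by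
    have h2 := sqrt_le hlt0 hg
    have h3 : Real.log t / (2 * g) ≤ (Real.log 2 + g * Real.log K) / (2 * g) :=
      div_le_div_of_nonneg_right hlt (by positivity)
    have h4 : (Real.log 2 + g * Real.log K) / (2 * g) = Real.log 2 / (2 * g) + Real.log K / 2 := by
      field_simp
    linarith
  have h2 := behrend hk t
  have h3 : 32 ≤ K * Real.exp (-4 * √(Real.log t)) := by
    calc (32 : ℝ) = Real.exp (Real.log 32) := (Real.exp_log (by norm_num)).symm
      _ ≤ Real.exp (Real.log K + -4 * √(Real.log t)) := Real.exp_le_exp.2 (by linarith)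
      _ = _ := by rw [Real.exp_add, Real.exp_log hK0]
  calc 32 * (t : ℝ) ≤ (K * Real.exp (-4 * √(Real.log t))) * t :=
        mul_le_mul_of_nonneg_right h3 ht0.le
    _ = K * (t * Real.exp (-4 * √(Real.log t))) := by ring
    _ ≤ _ := mul_le_mul_of_nonneg_left h2 hK0.le

theorem big_m {k : ℕ} (hk : 3 ≤ k) {g : ℝ} (hg : 0 < g) :
    ∃ m₀ : ℝ, 1 ≤ m₀ ∧ ∀ (K : ℝ) (m : ℕ), m₀ ≤ K → 1 ≤ m → K * r k m ≤ m →
      4 * K ^ g ≤ m := by
  set C : ℝ := Real.log 4 + 8 * g ^ 2 with hC
  have hlog4 : 0 < Real.log 4 := Real.log_pos (by norm_num)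
  have hC0 : 0 < C := by positivity
  refine ⟨Real.exp (2 * C), Real.one_le_exp (by positivity), fun K m hK hm hKm => ?_⟩
  have hK0 : 0 < K := lt_of_lt_of_le (Real.exp_pos _) hK
  have hm0 : (0 : ℝ) < m := by exact_mod_cast hm
  have hr : (1 : ℝ) ≤ r k m := by
    have h1 := r_pos hk hm
    exact_mod_cast h1
  have hKm' : K ≤ m := by nlinarith
  have hv : 2 * C ≤ Real.log m := (Real.le_log_iff_exp_le hm0).2 (hK.trans hKm')
  have hv0 : 0 ≤ Real.log m := by linarith
  have h1 := behrend hk m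
  have h2 : K ≤ Real.exp (4 * √(Real.log m)) := by
    have h3 : K * (m * Real.exp (-4 * √(Real.log m))) ≤ m :=
      (mul_le_mul_of_nonneg_left h1 hK0.le).trans hKm
    have h4 : K * Real.exp (-4 * √(Real.log m)) ≤ 1 := by
      have h5 : m * (K * Real.exp (-4 * √(Real.log m))) ≤ m * 1 := by linarith
      exact le_of_mul_le_mul_left h5 hm0
    have h5 : Real.exp (4 * √(Real.log m)) * Real.exp (-4 * √(Real.log m)) = 1 := by
      rw [← Real.exp_add]
      simp
    have h6 := Real.exp_pos (-4 * √(Real.log m))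
    nlinarith
  have hlK : Real.log K ≤ 4 * √(Real.log m) := by
    rw [Real.log_le_iff_le_exp hK0]
    exact h2
  have h3 : 4 * √(Real.log m) * g ≤ Real.log m / 2 + 8 * g ^ 2 := by
    have h4 := sqrt_le hv0 hg
    have h5 := mul_le_mul_of_nonneg_right h4 hg.le
    have h6 : (Real.log m / (2 * g) + 8 * g) * g = Real.log m / 2 + 8 * g ^ 2 := by
      field_simp
    linarith
  calc 4 * K ^ g = Real.exp (Real.log 4 + Real.log K * g) := by
        rw [Real.exp_add, Real.exp_log (by norm_num), Real.rpow_def_of_pos hK0]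
    _ ≤ Real.exp (Real.log m) := by
        apply Real.exp_le_exp.2
        have := mul_le_mul_of_nonneg_right hlK hg.le
        linarith
    _ = m := Real.exp_log hm0

/-- **supersaturation, all scales** -/
theorem ss_int {k : ℕ} (hk : 3 ≤ k) {g : ℝ} (hg : 0 < g) :
    ∃ K₀ : ℝ, 0 < K₀ ∧ ∀ (N m : ℕ), 1 ≤ m → m ≤ N → ∀ B ⊆ Icc 1 N,
      K₀ * (N * r k m / m) ≤ B.card →
      ((N : ℝ) / m) * B.card * ((B.card : ℝ) / (N * r k m / m)) ^ g ≤ ((aps k N B).card : ℝ) := by
  obtain ⟨K₁, hK₁, h1⟩ := behrend_ratio hk hg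
  obtain ⟨K₂, hK₂, h2⟩ := big_m hk hg
  refine ⟨max K₁ K₂, by positivity, fun N m hm hmN B hB hBc => ?_⟩
  have hm0 : (0 : ℝ) < m := by exact_mod_cast hm
  have hN : 1 ≤ N := hm.trans hmN
  have hN0 : (0 : ℝ) < N := by exact_mod_cast hN
  have hr0 : (0 : ℝ) < r k m := r_pos hk hm
  set s : ℝ := N * r k m / m with hs
  have hs0 : 0 < s := by positivity
  set K : ℝ := (B.card : ℝ) / s with hK
  have hKK : max K₁ K₂ ≤ K := by rw [hK, le_div_iff₀ hs0]; exact hBc
  have hK1 : K₁ ≤ K := (le_max_left _ _).trans hKK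
  have hK2 : K₂ ≤ K := (le_max_right _ _).trans hKK
  have hK0 : 0 < K := by linarith
  have hKone : 1 ≤ K := hK₁.trans hK1
  have hBK : (B.card : ℝ) = K * s := by rw [hK]; field_simp
  have hBN : (B.card : ℝ) ≤ N := by
    have := card_le_card hB
    rw [Nat.card_Icc, Nat.add_sub_cancel] at this
    exact_mod_cast this
  have hKm : K * r k m ≤ m := by
    have h3 : K * (N * r k m / m) ≤ N := by rw [← hs, ← hBK]; exact hBN
    have h4 : K * (N * r k m / m) = N * (K * r k m / m) := by ring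
    rw [h4] at h3
    have h5 : K * r k m / m ≤ 1 := by
      have : (N : ℝ) * (K * r k m / m) ≤ N * 1 := by linarith
      exact le_of_mul_le_mul_left this hN0
    rwa [div_le_one hm0] at h5
  have h4K := h2 K m hK2 hm hKm
  have hKg : 1 ≤ K ^ g := Real.one_le_rpow hKone hg.le
  set t : ℕ := ⌈K ^ g⌉₊ with ht
  have ht1 : K ^ g ≤ t := Nat.le_ceil _
  have ht2 : (t : ℝ) ≤ 2 * K ^ g := by
    have := Nat.ceil_lt_add_one (show 0 ≤ K ^ g by linarith)
    linarith
  have ht0 : 1 ≤ t := by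
    have : (1 : ℝ) ≤ t := hKg.trans ht1
    exact_mod_cast this
  have ht0' : (0 : ℝ) < t := by exact_mod_cast ht0
  have h32 := h1 K t hK1 ht0 ht2
  have h2t : 2 * t ≤ m := by
    have : ((2 * t : ℕ) : ℝ) ≤ m := by push_cast; linarith
    exact_mod_cast this
  set m' : ℕ := m / (2 * t) with hm'
  have hm'1 : 1 ≤ m' := (Nat.one_le_div_iff (by omega)).2 h2t
  have hm't : 2 * t * m' ≤ m := Nat.mul_div_le _ _
  have hm't2 : m ≤ 4 * t * m' := by
    have := Nat.lt_mul_div_succ m (show 0 < 2 * t by omega)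
    rw [← hm'] at this
    nlinarith
  have hm'N : m' ≤ N := by
    have : m' ≤ m := Nat.div_le_self _ _
    omega
  have hm'0 : (0 : ℝ) < m' := by exact_mod_cast hm'1
  have hprod : r k m' * r k t ≤ r k m := by
    refine (prod hk hm'1 t).trans (r_mono ?_)
    calc (2 * m' - 1) * t ≤ 2 * m' * t := Nat.mul_le_mul_right _ (by omega)
      _ = 2 * t * m' := by ring
      _ ≤ m := hm't
  have hprod' : (r k m' : ℝ) * r k t ≤ r k m := by exact_mod_cast hprod
  have hrt : (0 : ℝ) < r k t := r_pos hk ht0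
  clear_value t m' K s
  have hmain : (8 * N * r k m' : ℝ) ≤ m' * B.card := by
    have e1 : (8 * N * r k m' : ℝ) * r k t ≤ (m' * B.card) * r k t := by
      calc (8 * N * r k m' : ℝ) * r k t = 8 * N * (r k m' * r k t) := by ring
        _ ≤ 8 * N * r k m := mul_le_mul_of_nonneg_left hprod' (by positivity)
        _ = (32 * t) * (N * r k m * (1 / (4 * t))) := by
            field_simp
            norm_num
        _ ≤ (K * r k t) * (N * r k m * (1 / (4 * t))) :=
            mul_le_mul_of_nonneg_right h32 (by positivity)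
        _ ≤ (K * r k t) * (N * r k m * (m' / m)) := by
            have e2 : 1 / (4 * (t : ℝ)) ≤ m' / m := by
              rw [div_le_div_iff₀ (by positivity) hm0, one_mul]
              have : (m : ℝ) ≤ ((4 * t * m' : ℕ) : ℝ) := by exact_mod_cast hm't2
              push_cast at this
              linarith
            gcongr
        _ = (m' * B.card) * r k t := by
            rw [hBK, hs]
            ring
    exact le_of_mul_le_mul_right e1 hrt
  have hmain' : 8 * N * r k m' ≤ m' * B.card := by exact_mod_cast hmain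
  have hv := vary (by omega : 2 ≤ k) hN hm'1 hm'N hB hmain'
  have hv' : (N : ℝ) * B.card ≤ 2 * m' * ((aps k N B).card : ℝ) := by exact_mod_cast hv
  have hB0 : (0 : ℝ) ≤ B.card := Nat.cast_nonneg _
  have e3 : ((N : ℝ) / m) * B.card * K ^ g ≤ ((N : ℝ) / m) * B.card * t :=
    mul_le_mul_of_nonneg_left ht1 (mul_nonneg (div_nonneg hN0.le hm0.le) hB0)
  refine e3.trans ?_
  have e4 : ((N : ℝ) / m) * B.card * t ≤ (2 * t * m' / m) * ((aps k N B).card : ℝ) := by
    calc ((N : ℝ) / m) * B.card * t = (N * B.card) * (t / m) := by ring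
      _ ≤ (2 * m' * ((aps k N B).card : ℝ)) * (t / m) :=
          mul_le_mul_of_nonneg_right hv' (by positivity)
      _ = _ := by ring
  refine e4.trans ?_
  have e5 : 2 * (t : ℝ) * m' / m ≤ 1 := by
    rw [div_le_one hm0]
    exact_mod_cast hm't
  exact mul_le_of_le_one_left (Nat.cast_nonneg _) e5

theorem SSy_EI {k : ℕ} (hk : 3 ≤ k) {g : ℝ} (hg : 0 < g) :
    ∃ K₀ : ℝ, 0 < K₀ ∧ ∀ (N m : ℕ), 1 ≤ m → m ≤ N →
      SSy (EI k N) (Icc 1 N) 1 g K₀ (N * r k m / m) ((N : ℝ) / m) := by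
  obtain ⟨K₀, hK₀, h⟩ := ss_int hk hg
  refine ⟨K₀, hK₀, fun N m hm hmN B hB hBc => ?_⟩
  rw [one_mul]
  refine (h N m hm hmN B hB hBc).trans ?_
  exact_mod_cast aps_le_edges (by omega) hB

end Pool.Agent.L5helper45.IN
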