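import Pool.Agent.L5helper45.IN.Up

set_option autoImplicit false

/-! # Counting and random subsets: lower bounds (helper45) -/

namespace Pool.Agent.L5helper45.IN

open Finset Filter
open Pool.Agent.H617R3.AP Pool.Agent.TH106.AP3
open Pool.Agent.L5helper45.CT (HG IndE)

/-- intervals of length `t` around the points of a dilated extremal set -/
theorem block {k : ℕ} (hk : 3 ≤ k) {N t m : ℕ} (ht : 1 ≤ t) (h : 2 * t * m ≤ N) :
    ∃ D ⊆ Icc 1 N, D.card = t * r k m ∧ (aps k N D).card ≤ D.card * (t - 1) := by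
  classical
  obtain ⟨B, hB, hB2, hB3⟩ := exists_opt (k := k) (by omega) m
  set f : ℕ × ℕ → ℕ := fun z => 2 * t * (z.1 - 1) + z.2 + 1 with hf
  set D : Finset ℕ := (B ×ˢ range t).image f with hD
  have hdiv : ∀ b j : ℕ, j < t → (2 * t * (b - 1) + j) / (2 * t) = b - 1 ∧
      (2 * t * (b - 1) + j) % (2 * t) = j := by
    intro b j hj
    constructor
    · rw [Nat.mul_add_div (by omega), Nat.div_eq_of_lt (by omega), add_zero]
    · rw [Nat.mul_add_mod, Nat.mod_eq_of_lt (by omega)]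
  have hcard : D.card = t * r k m := by
    rw [hD, card_image_of_injOn, card_product, card_range, hB3, mul_comm]
    rintro ⟨b, j⟩ hz ⟨b', j'⟩ hz' hff
    rw [mem_coe, mem_product, mem_range] at hz hz'
    simp only [hf] at hff hz hz'
    have h1 : 2 * t * (b - 1) + j = 2 * t * (b' - 1) + j' := by omega
    obtain ⟨e1, e2⟩ := hdiv b j hz.2
    obtain ⟨e3, e4⟩ := hdiv b' j' hz'.2
    rw [h1] at e1 e2
    have h2 := mem_Icc.1 (hB hz.1)
    have h3 := mem_Icc.1 (hB hz'.1)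
    have h4 : b = b' := by omega
    have h5 : j = j' := by omega
    rw [h4, h5]
  have hDN : D ⊆ Icc 1 N := by
    intro x hx
    obtain ⟨⟨b, j⟩, hz, rfl⟩ := mem_image.1 hx
    rw [mem_product, mem_range] at hz
    simp only at hz
    have h2 := mem_Icc.1 (hB hz.1)
    rw [mem_Icc]
    simp only [hf]
    constructor
    · omega
    · have h3 : 2 * t * (b - 1) + 2 * t = 2 * t * b := by
        obtain ⟨b', rfl⟩ : ∃ b', b = b' + 1 := ⟨b - 1, by omega⟩
        rw [Nat.add_sub_cancel]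
        ring
      have h4 : 2 * t * b ≤ 2 * t * m := Nat.mul_le_mul_left _ h2.2
      omega
  refine ⟨D, hDN, hcard, ?_⟩
  have h1 : aps k N D ⊆ D ×ˢ (Icc 1 (t - 1)) := by
    rintro ⟨a, d⟩ hz
    obtain ⟨⟨_, hd⟩, hz2⟩ := mem_aps'.1 hz
    simp only at hd hz2
    have hd1 := (mem_Icc.1 hd).1
    rw [mem_product]
    have ha : a ∈ D := by simpa using hz2 0 (by omega)
    refine ⟨ha, ?_⟩
    simp only
    -- the coordinates
    have hch : ∀ i, i < k → ∃ z : ℕ × ℕ, (z.1 ∈ B ∧ z.2 < t) ∧ f z = a + i * d := by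
      intro i hi
      obtain ⟨z, hz, hz'⟩ := mem_image.1 (hz2 i hi)
      rw [mem_product, mem_range] at hz
      exact ⟨z, hz, hz'⟩
    choose! z hzB hzf using hch
    have hzf' : ∀ i, i < k → (2 * t * ((z i).1 : ℤ) - 2 * t) + (z i).2 + 1 = a + i * d := by
      intro i hi
      have e1 := hzf i hi
      have e2 := mem_Icc.1 (hB (hzB i hi).1)
      simp only [hf] at e1
      have e3 : ((2 * t * ((z i).1 - 1) + (z i).2 + 1 : ℕ) : ℤ) = ((a + i * d : ℕ) : ℤ) := by
        exact_mod_cast e1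
      push_cast [Nat.cast_sub e2.1] at e3
      linarith
    have hsecond : ∀ i, i + 2 < k → ((z i).1 : ℤ) + (z (i + 2)).1 = 2 * (z (i + 1)).1 := by
      intro i hi
      have e1 := hzf' i (by omega)
      have e2 := hzf' (i + 1) (by omega)
      have e3 := hzf' (i + 2) (by omega)
      push_cast at e2 e3
      have j1 := (hzB i (by omega)).2
      have j2 := (hzB (i + 1) (by omega)).2
      have j3 := (hzB (i + 2) (by omega)).2
      have j1' : ((z i).2 : ℤ) < t := by exact_mod_cast j1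
      have j2' : ((z (i + 1)).2 : ℤ) < t := by exact_mod_cast j2
      have j3' : ((z (i + 2)).2 : ℤ) < t := by exact_mod_cast j3
      have j1p : (0 : ℤ) ≤ (z i).2 := Nat.cast_nonneg _
      have j2p : (0 : ℤ) ≤ (z (i + 1)).2 := Nat.cast_nonneg _
      have j3p : (0 : ℤ) ≤ (z (i + 2)).2 := Nat.cast_nonneg _
      have hsum : 2 * (t : ℤ) * (((z i).1 : ℤ) + (z (i + 2)).1 - 2 * (z (i + 1)).1) =
          -(((z i).2 : ℤ) + (z (i + 2)).2 - 2 * (z (i + 1)).2) := by linarith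
      have ht' : (1 : ℤ) ≤ t := by exact_mod_cast ht
      by_contra hne
      have hne' : (((z i).1 : ℤ) + (z (i + 2)).1 - 2 * (z (i + 1)).1) ≠ 0 := fun h0 => hne (by linarith)
      rcases lt_or_gt_of_ne hne' with h0 | h0
      · have h6 : (((z i).1 : ℤ) + (z (i + 2)).1 - 2 * (z (i + 1)).1) ≤ -1 := by omega
        nlinarith
      · have h6 : 1 ≤ (((z i).1 : ℤ) + (z (i + 2)).1 - 2 * (z (i + 1)).1) := by omega
        nlinarith
    have hlin := linear (k := k) (fun i => ((z i).1 : ℤ)) hsecond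
    have he0 := no_ap hk hB2 (fun i => (z i).1) (((z 1).1 : ℤ) - (z 0).1)
      (fun i hi => (hzB i hi).1) (fun i hi => hlin i hi)
    have e1 := hzf' 0 (by omega)
    have e2 := hzf' 1 (by omega)
    push_cast at e1 e2
    have j1 := (hzB 1 (by omega)).2
    have j1' : ((z 1).2 : ℤ) < t := by exact_mod_cast j1
    have j0p : (0 : ℤ) ≤ (z 0).2 := Nat.cast_nonneg _
    have e3 : ((z 1).1 : ℤ) = (z 0).1 := by linarith
    rw [e3] at e2
    have e4 : (d : ℤ) < t := by linarith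
    have e5 : d < t := by exact_mod_cast e4
    rw [mem_Icc]
    omega
  calc (aps k N D).card ≤ _ := card_le_card h1
    _ = _ := by rw [card_product, Nat.card_Icc, Nat.add_sub_cancel]

theorem lower_event {k : ℕ} (hk : 3 ≤ k) {N t m : ℕ} (ht : 1 ≤ t) (hm : 1 ≤ m)
    (h : 2 * t * m ≤ N) {q : ℝ} (hq0 : 0 < q) (hq1 : q ≤ 1) :
    prob (Icc 1 N) q (fun R => ¬ ∃ A ⊆ R, APFree k A ∧ q * (t * r k m) / 4 ≤ (A.card : ℝ)) ≤
      Real.exp (-(q * (t * r k m) / 16)) + 4 * q ^ (k - 1) * ((t : ℝ) - 1) := by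
  classical
  obtain ⟨D, hDN, hD, hD'⟩ := block hk ht h
  have hDr : (D.card : ℝ) = t * r k m := by rw [hD]; push_cast; ring
  have hr0 : (0 : ℝ) < r k m := r_pos hk hm
  have ht0 : (0 : ℝ) < t := by exact_mod_cast ht
  have hD0 : (0 : ℝ) < D.card := by rw [hDr]; positivity
  have haps : ((aps k N D).card : ℝ) ≤ D.card * ((t : ℝ) - 1) := by
    have h2 : ((aps k N D).card : ℝ) ≤ ((D.card * (t - 1) : ℕ) : ℝ) := by exact_mod_cast hD'
    rw [Nat.cast_mul, Nat.cast_sub ht] at h2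
    push_cast at h2
    exact h2
  rw [← hDr]
  set a : ℝ := q * D.card / 4 with ha
  have ha0 : 0 < a := by positivity
  have h1 : prob (Icc 1 N) q (fun R => ¬ ∃ A ⊆ R, APFree k A ∧ a ≤ (A.card : ℝ)) ≤
      prob (Icc 1 N) q (fun R => ((R ∩ D).card : ℝ) < q * D.card / 2 ∨
        a ≤ (((aps k N D).filter fun z => edge k z ⊆ R).card : ℝ)) := by
    apply prob_mono hq0.le hq1
    intro R _ hS
    by_contra hcon
    push Not at hcon
    obtain ⟨h2, h3⟩ := hcon
    apply hS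
    refine ⟨(R ∩ D) \ ((aps k N D).filter fun z => edge k z ⊆ R).image Prod.fst,
      sdiff_subset.trans inter_subset_left, ?_, ?_⟩
    · intro x d hd h4
      have h5 : ∀ i < k, x + i * d ∈ R ∧ x + i * d ∈ D := fun i hi =>
        mem_inter.1 (mem_sdiff.1 (h4 i hi)).1
      have h6 : (x, d) ∈ aps k N D := mem_aps_of (by omega) hDN hd fun i hi => (h5 i hi).2
      have h7 := (mem_sdiff.1 (h4 0 (by omega))).2
      apply h7
      rw [mem_image]
      refine ⟨(x, d), mem_filter.2 ⟨h6, ?_⟩, by simp⟩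
      intro y hy
      obtain ⟨i, hi, rfl⟩ := mem_image.1 hy
      exact (h5 i (mem_range.1 hi)).1
    · have h4 : (R ∩ D).card ≤
          ((R ∩ D) \ ((aps k N D).filter fun z => edge k z ⊆ R).image Prod.fst).card +
          (((aps k N D).filter fun z => edge k z ⊆ R).image Prod.fst).card :=
        card_le_card_sdiff_add_card
      have h5 : (((aps k N D).filter fun z => edge k z ⊆ R).image Prod.fst).card ≤
          ((aps k N D).filter fun z => edge k z ⊆ R).card := card_image_le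
      have h6 : ((R ∩ D).card : ℝ) ≤
          (((R ∩ D) \ ((aps k N D).filter fun z => edge k z ⊆ R).image Prod.fst).card : ℝ) +
          (((aps k N D).filter fun z => edge k z ⊆ R).card : ℝ) := by
        exact_mod_cast h4.trans (by omega)
      linarith
  refine h1.trans ((prob_or hq0.le hq1 _ _).trans ?_)
  apply add_le_add
  · exact prob_lower hq0.le hq1 hDN
  · refine (prob_markov hq0.le hq1 (aps k N D) (edge k) k (fun z hz => ?_) ha0).trans ?_
    · have hz' := mem_aps'.1 hz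
      constructor
      · have hz2 := mem_Icc.1 hz'.1.2
        unfold edge
        rw [card_image_of_injOn, card_range]
        intro i _ j _ hij
        simp only at hij
        have : i * z.2 = j * z.2 := by omega
        exact Nat.eq_of_mul_eq_mul_right (by omega) this
      · intro y hy
        obtain ⟨i, hi, rfl⟩ := mem_image.1 hy
        exact hDN (hz'.2 i (mem_range.1 hi))
    · rw [div_le_iff₀ ha0]
      have hqk : q ^ k = q ^ (k - 1) * q := by
        rw [← pow_succ]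
        congr 1
        omega
      calc ((aps k N D).card : ℝ) * q ^ k ≤ (D.card * ((t : ℝ) - 1)) * q ^ k :=
            mul_le_mul_of_nonneg_right haps (by positivity)
        _ = 4 * q ^ (k - 1) * ((t : ℝ) - 1) * a := by
            rw [hqk, ha]
            ring

/-- random subsets have large progression-free subsets -/
theorem rand_lower {k : ℕ} (hk : 3 ≤ k) {ε : ℝ} (hε : 0 < ε) (hε1 : ε ≤ 1) :
    ∃ M : ℝ, ∀ (N : ℕ) (q : ℝ), 0 < q → q ≤ 1 → M ≤ q ^ (k - 1) * N →
      1 - ε ≤ prob (Icc 1 N) q (fun R => ∃ A ⊆ R, APFree k A ∧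
        ε / 256 * (r k ⌊q ^ (k - 1) * N⌋₊ / q ^ (k - 2)) ≤ (A.card : ℝ)) := by
  classical
  obtain ⟨n₀, hn₀⟩ := Filter.eventually_atTop.1
    ((tendsto_r hk).eventually_ge_atTop (16 * 64 / ε * Real.log (2 / ε)))
  refine ⟨max 4 n₀, fun N q hq0 hq1 hx => ?_⟩
  set x : ℝ := q ^ (k - 1) * N with hxdef
  have hx4 : 4 ≤ x := (le_max_left _ _).trans hx
  have hxn : (n₀ : ℝ) ≤ x := (le_max_right _ _).trans hx
  have hqk : 0 < q ^ (k - 1) := by positivity
  have hqk1 : q ^ (k - 1) ≤ 1 := pow_le_one₀ hq0.le hq1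
  have hqk2 : 0 < q ^ (k - 2) := by positivity
  have hqk21 : q ^ (k - 2) ≤ 1 := pow_le_one₀ hq0.le hq1
  have h9 : q ^ (k - 1) = q ^ (k - 2) * q := by
    rw [← pow_succ]
    congr 1
    omega
  have hfl : n₀ ≤ ⌊x⌋₊ := Nat.le_floor hxn
  have hrbig := hn₀ ⌊x⌋₊ hfl
  set t : ℕ := 1 + ⌊ε / 8 / q ^ (k - 1)⌋₊ with ht
  have hεq : 0 ≤ ε / 8 / q ^ (k - 1) := by positivity
  have ht1 : 1 ≤ t := by omega
  have ht2 : (t : ℝ) - 1 ≤ ε / 8 / q ^ (k - 1) := by
    have := Nat.floor_le hεq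
    rw [ht]
    push_cast
    linarith
  have ht3 : ε / 8 / q ^ (k - 1) ≤ t := by
    have := Nat.lt_floor_add_one (ε / 8 / q ^ (k - 1))
    rw [ht]
    push_cast
    linarith
  have ht4 : (t : ℝ) * q ^ (k - 1) ≤ 2 := by
    have e1 : ((t : ℝ) - 1) * q ^ (k - 1) ≤ ε / 8 := by
      have := mul_le_mul_of_nonneg_right ht2 hqk.le
      rwa [div_mul_cancel₀ _ hqk.ne'] at this
    nlinarith
  have ht0 : (0 : ℝ) < t := by exact_mod_cast ht1
  set m : ℕ := N / (2 * t) with hm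
  have hNt : x / 4 ≤ (N : ℝ) / (2 * t) := by
    rw [div_le_div_iff₀ (by norm_num) (by positivity), hxdef]
    have hN0 : (0 : ℝ) ≤ N := Nat.cast_nonneg _
    have := mul_le_mul_of_nonneg_right ht4 hN0
    linarith
  have hm2 : x / 8 ≤ m := by
    have e1 : (N : ℝ) / (2 * t) < m + 1 := by
      rw [div_lt_iff₀ (by positivity)]
      have e2 := Nat.lt_mul_div_succ N (show 0 < 2 * t by omega)
      rw [← hm] at e2
      have e3 : (N : ℝ) < ((2 * t * (m + 1) : ℕ) : ℝ) := by exact_mod_cast e2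
      push_cast at e3
      linarith
    have e4 : (0 : ℝ) < m := by linarith
    have e5 : (1 : ℝ) ≤ m := by
      have : 0 < m := by exact_mod_cast e4
      exact_mod_cast this
    linarith
  have hm1 : 1 ≤ m := by
    have : (0 : ℝ) < m := by linarith
    exact_mod_cast this
  have h2tm : 2 * t * m ≤ N := Nat.mul_div_le _ _
  have hfm : r k ⌊x⌋₊ ≤ 8 * r k m := by
    refine (r_mono ?_).trans (r_mul_le (by omega) 8 m)
    have e1 : (⌊x⌋₊ : ℝ) ≤ ((8 * m : ℕ) : ℝ) := by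
      have := Nat.floor_le (show 0 ≤ x by linarith)
      push_cast
      linarith
    exact_mod_cast e1
  have hfm' : (r k ⌊x⌋₊ : ℝ) ≤ 8 * r k m := by exact_mod_cast hfm
  have hr0 : (0 : ℝ) ≤ r k m := Nat.cast_nonneg _
  clear_value t m x
  have hqt : ε / 8 / q ^ (k - 2) ≤ q * t := by
    have e1 : ε / 8 / q ^ (k - 2) = q * (ε / 8 / q ^ (k - 1)) := by
      rw [h9]
      field_simp
    rw [e1]
    exact mul_le_mul_of_nonneg_left ht3 hq0.le
  have hmainF : ε / 64 * (r k ⌊x⌋₊ / q ^ (k - 2)) ≤ q * (t * r k m) := by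
    calc ε / 64 * (r k ⌊x⌋₊ / q ^ (k - 2)) ≤ ε / 64 * ((8 * r k m) / q ^ (k - 2)) := by gcongr
      _ = (ε / 8 / q ^ (k - 2)) * r k m := by ring
      _ ≤ (q * t) * r k m := mul_le_mul_of_nonneg_right hqt hr0
      _ = _ := by ring
  have hev := lower_event hk ht1 hm1 h2tm hq0 hq1
  have hnot := prob_not (W := Icc 1 N) (q := q) (fun R => ∃ A ⊆ R, APFree k A ∧
        ε / 256 * (r k ⌊x⌋₊ / q ^ (k - 2)) ≤ (A.card : ℝ))
  have hmono : prob (Icc 1 N) q (fun R => ¬ ∃ A ⊆ R, APFree k A ∧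
        ε / 256 * (r k ⌊x⌋₊ / q ^ (k - 2)) ≤ (A.card : ℝ)) ≤
      prob (Icc 1 N) q (fun R => ¬ ∃ A ⊆ R, APFree k A ∧
        q * (t * r k m) / 4 ≤ (A.card : ℝ)) := by
    apply prob_mono hq0.le hq1
    rintro R _ h1 ⟨A, hA1, hA2, hA3⟩
    exact h1 ⟨A, hA1, hA2, by linarith⟩
  have hfirst : Real.exp (-(q * (t * r k m) / 16)) ≤ ε / 2 := by
    have e1 : (r k ⌊x⌋₊ : ℝ) ≤ r k ⌊x⌋₊ / q ^ (k - 2) := by
      rw [le_div_iff₀ hqk2]
      exact mul_le_of_le_one_right (Nat.cast_nonneg _) hqk21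
    have e2 : 16 * Real.log (2 / ε) ≤ q * (t * r k m) := by
      refine le_trans ?_ hmainF
      have e3 := mul_le_mul_of_nonneg_left (hrbig.trans e1) (show 0 ≤ ε / 64 by positivity)
      have e4 : ε / 64 * (16 * 64 / ε * Real.log (2 / ε)) = 16 * Real.log (2 / ε) := by
        field_simp
      linarith
    calc Real.exp (-(q * (t * r k m) / 16)) ≤ Real.exp (-(Real.log (2 / ε))) :=
          Real.exp_le_exp.2 (by linarith)
      _ = ε / 2 := by
          rw [Real.exp_neg, Real.exp_log (by positivity), inv_div]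
  have hsecond : 4 * q ^ (k - 1) * ((t : ℝ) - 1) ≤ ε / 2 := by
    have := mul_le_mul_of_nonneg_right ht2 hqk.le
    rw [div_mul_cancel₀ _ hqk.ne'] at this
    linarith
  linarith

open Classical in
/-- counting by size, lower bound -/
theorem count_lower {k : ℕ} (hk : 3 ≤ k) {ε : ℝ} (hε : 0 < ε) (hε1 : ε ≤ 1) :
    ∃ M : ℝ, ∀ (N : ℕ) (q : ℝ) (t : ℕ), 0 < q → q ≤ 1 → M ≤ q ^ (k - 1) * N →
      (t : ℝ) ≤ ε / 256 * (r k ⌊q ^ (k - 1) * N⌋₊ / q ^ (k - 2)) →
      1 - ε ≤ (((Icc 1 N).powerset.filter (fun A => APFree k A ∧ A.card = t)).card : ℝ) * q ^ t := by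
  obtain ⟨M, hM⟩ := rand_lower hk hε hε1
  refine ⟨M, fun N q t hq0 hq1 hx ht => (hM N q hq0 hq1 hx).trans ?_⟩
  set 𝒜 := (Icc 1 N).powerset.filter (fun A => APFree k A ∧ A.card = t) with h𝒜
  have h1 : prob (Icc 1 N) q (fun R => ∃ A ⊆ R, APFree k A ∧
        ε / 256 * (r k ⌊q ^ (k - 1) * N⌋₊ / q ^ (k - 2)) ≤ (A.card : ℝ)) ≤
      prob (Icc 1 N) q (fun R => ∃ A ∈ 𝒜, A ⊆ R) := by
    apply prob_mono hq0.le hq1
    rintro R hR ⟨A, hA1, hA2, hA3⟩
    have h2 : t ≤ A.card := by exact_mod_cast ht.trans hA3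
    obtain ⟨B, hB1, hB2⟩ := exists_subset_card_eq h2
    exact ⟨B, mem_filter.2 ⟨mem_powerset.2 ((hB1.trans hA1).trans hR), hA2.mono hB1, hB2⟩,
      hB1.trans hA1⟩
  refine h1.trans ((prob_union hq0.le hq1 𝒜 _).trans (le_of_eq ?_))
  have h2 : ∀ A ∈ 𝒜, prob (Icc 1 N) q (fun R => A ⊆ R) = q ^ t := by
    intro A hA
    rw [h𝒜, mem_filter, mem_powerset] at hA
    rw [prob_sub hA.1, hA.2.2]
  rw [sum_congr rfl h2, sum_const, nsmul_eq_mul]

end Pool.Agent.L5helper45.IN
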