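import Pool.Agent.L5helper45.IN.HGI
import Pool.Agent.L5helper45.CT.Rand

set_option autoImplicit false

/-! # Random subsets of a finite set of integers (helper45) -/

namespace Pool.Agent.L5helper45.IN

open Finset
open Pool.Agent.R535.SP (rp rp_eq wt_nonneg rp_mono rp_union moment tail lower rp_true rp_not)
open Pool.Agent.L5helper45.CT (rp_or markov sum_sub markov_count)

/-- the probability that the random subset `R` of `W` (every element is taken with probability `q`,
independently) has the property `Q` -/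
noncomputable def prob (W : Finset ℕ) (q : ℝ) (Q : Finset ℕ → Prop) : ℝ := by
  classical
  exact ∑ R ∈ W.powerset.filter (fun R => Q R), q ^ R.card * (1 - q) ^ (W.card - R.card)

open Classical in
theorem prob_def (W : Finset ℕ) (q : ℝ) (Q : Finset ℕ → Prop) : prob W q Q =
    ∑ R ∈ W.powerset.filter (fun R => Q R), q ^ R.card * (1 - q) ^ (W.card - R.card) := rfl

theorem prob_rp (W : Finset ℕ) (q : ℝ) (Q : Finset ℕ → Prop) :
    prob W q Q = rp q (fun R : Finset {x // x ∈ W} => Q (R.map (Function.Embedding.subtype _))) := by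
  classical
  rw [prob_def, rp_eq]
  symm
  refine sum_bij' (fun R _ => R.map (Function.Embedding.subtype _))
    (fun R _ => R.subtype (fun x => x ∈ W)) ?_ ?_ ?_ ?_ ?_
  · intro R hR
    rw [mem_filter, mem_powerset]
    refine ⟨?_, (mem_filter.1 hR).2⟩
    intro x hx
    obtain ⟨y, _, rfl⟩ := mem_map.1 hx
    exact y.2
  · intro R hR
    rw [mem_filter, mem_powerset] at hR
    rw [mem_filter]
    refine ⟨mem_univ _, ?_⟩
    rw [subtype_map, filter_true_of_mem (fun x hx => hR.1 hx)]
    exact hR.2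
  · intro R _
    ext x
    simp [mem_subtype]
  · intro R hR
    rw [mem_filter, mem_powerset] at hR
    rw [subtype_map, filter_true_of_mem (fun x hx => hR.1 hx)]
  · intro R _
    rw [card_map, Fintype.card_coe]

variable {W : Finset ℕ} {q : ℝ}

theorem prob_mono (hq0 : 0 ≤ q) (hq1 : q ≤ 1) {Q Q' : Finset ℕ → Prop}
    (h : ∀ R ⊆ W, Q R → Q' R) : prob W q Q ≤ prob W q Q' := by
  rw [prob_rp, prob_rp]
  apply rp_mono hq0 hq1
  intro R hR
  refine h _ ?_ hR
  intro x hx
  obtain ⟨y, _, rfl⟩ := mem_map.1 hx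
  exact y.2

theorem prob_union (hq0 : 0 ≤ q) (hq1 : q ≤ 1) {ι : Type} (s : Finset ι)
    (Q : ι → Finset ℕ → Prop) :
    prob W q (fun R => ∃ i ∈ s, Q i R) ≤ ∑ i ∈ s, prob W q (Q i) := by
  simp_rw [prob_rp]
  exact rp_union hq0 hq1 s _

theorem prob_or (hq0 : 0 ≤ q) (hq1 : q ≤ 1) (Q Q' : Finset ℕ → Prop) :
    prob W q (fun R => Q R ∨ Q' R) ≤ prob W q Q + prob W q Q' := by
  simp_rw [prob_rp]
  exact rp_or hq0 hq1 _ _

theorem prob_not (Q : Finset ℕ → Prop) : prob W q (fun R => ¬ Q R) = 1 - prob W q Q := by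
  rw [prob_rp, prob_rp]
  exact rp_not (V := {x // x ∈ W}) (p := q) _

theorem prob_sub {T : Finset ℕ} (hT : T ⊆ W) : prob W q (fun R => T ⊆ R) = q ^ T.card := by
  classical
  rw [prob_rp]
  have h1 := sum_sub (V := {x // x ∈ W}) (T.subtype (fun x => x ∈ W)) q
  have hc : (T.subtype (fun x => x ∈ W)).card = T.card := by
    rw [card_subtype, filter_true_of_mem (fun x hx => hT hx)]
  rw [hc] at h1
  rw [← h1, rp_eq, sum_filter]
  refine sum_congr rfl fun R _ => ?_
  have h2 : (T ⊆ R.map (Function.Embedding.subtype _)) ↔ T.subtype (fun x => x ∈ W) ⊆ R := by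
    constructor
    · intro h x hx
      rw [mem_subtype] at hx
      obtain ⟨y, hy, hy'⟩ := mem_map.1 (h hx)
      have : y = x := Subtype.ext hy'
      rwa [← this]
    · intro h x hx
      exact mem_map.2 ⟨⟨x, hT hx⟩, h (by rw [mem_subtype]; exact hx), rfl⟩
  by_cases h : T ⊆ R.map (Function.Embedding.subtype _)
  · rw [if_pos h, if_pos (h2.1 h)]
  · rw [if_neg h, if_neg (fun h3 => h (h2.2 h3))]

theorem map_inter_card (R : Finset {x // x ∈ W}) (C : Finset ℕ) :
    (R.map (Function.Embedding.subtype _) ∩ C).card =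
      (R ∩ C.subtype (fun x => x ∈ W)).card := by
  classical
  rw [← card_map (Function.Embedding.subtype _) (s := R ∩ C.subtype (fun x => x ∈ W))]
  congr 1
  ext x
  rw [mem_inter, mem_map, mem_map]
  constructor
  · rintro ⟨⟨y, hy, rfl⟩, hx⟩
    exact ⟨y, mem_inter.2 ⟨hy, by rw [mem_subtype]; exact hx⟩, rfl⟩
  · rintro ⟨y, hy, rfl⟩
    rw [mem_inter, mem_subtype] at hy
    exact ⟨⟨y, hy.1, rfl⟩, hy.2⟩

/-- upper tail together with a fingerprint -/
theorem prob_tail (hq0 : 0 ≤ q) (hq1 : q ≤ 1) (T C : Finset ℕ) (a : ℝ) :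
    prob W q (fun R => T ⊆ R ∧ a ≤ ((R ∩ C).card : ℝ)) ≤
      (3 * q) ^ T.card * Real.exp (2 * q * C.card - a) := by
  classical
  by_cases hT : T ⊆ W
  swap
  · have : prob W q (fun R => T ⊆ R ∧ a ≤ ((R ∩ C).card : ℝ)) = 0 := by
      rw [prob_def]
      refine sum_eq_zero fun R hR => ?_
      rw [@mem_filter, mem_powerset] at hR
      exact absurd (hR.2.1.trans hR.1) hT
    rw [this]
    positivity
  rw [prob_rp]
  set T' : Finset {x // x ∈ W} := T.subtype (fun x => x ∈ W) with hT'
  set C' : Finset {x // x ∈ W} := C.subtype (fun x => x ∈ W) \ T' with hC'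
  have hcT : T'.card = T.card := by
    rw [hT', card_subtype, filter_true_of_mem (fun x hx => hT hx)]
  have hcC : C'.card ≤ C.card := by
    refine (card_le_card sdiff_subset).trans ?_
    rw [card_subtype]
    exact card_filter_le _ _
  have hdisj : Disjoint T' C' := disjoint_sdiff
  have h1 : rp q (fun R : Finset {x // x ∈ W} => T ⊆ R.map (Function.Embedding.subtype _) ∧
      a ≤ ((R.map (Function.Embedding.subtype _) ∩ C).card : ℝ)) ≤
      rp q (fun R => T' ⊆ R ∧ a - T.card ≤ ((R ∩ C').card : ℝ)) := by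
    apply rp_mono hq0 hq1
    rintro R ⟨h2, h3⟩
    constructor
    · intro x hx
      rw [hT', mem_subtype] at hx
      obtain ⟨y, hy, hy'⟩ := mem_map.1 (h2 hx)
      have : y = x := Subtype.ext hy'
      rwa [← this]
    · rw [map_inter_card] at h3
      have h4 : (R ∩ C.subtype (fun x => x ∈ W)).card ≤ (R ∩ C').card + T'.card := by
        have h5 : R ∩ C.subtype (fun x => x ∈ W) ⊆ (R ∩ C') ∪ T' := by
          intro x hx
          rw [mem_inter] at hx
          by_cases hxT : x ∈ T'
          · exact mem_union_right _ hxT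
          · exact mem_union_left _ (mem_inter.2 ⟨hx.1, mem_sdiff.2 ⟨hx.2, hxT⟩⟩)
        exact (card_le_card h5).trans (card_union_le _ _)
      rw [hcT] at h4
      have h6 : ((R ∩ C.subtype (fun x => x ∈ W)).card : ℝ) ≤ ((R ∩ C').card : ℝ) + T.card := by
        exact_mod_cast h4
      linarith
  refine h1.trans ((tail T' C' hdisj hq0 hq1 (l := 1) zero_le_one le_rfl).trans ?_)
  rw [hcT]
  have h7 : Real.exp (T.card : ℝ) ≤ 3 ^ T.card := by
    rw [← Real.exp_one_pow]
    apply pow_le_pow_left₀ (Real.exp_pos _).le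
    have := Real.exp_one_lt_d9
    linarith
  calc q ^ T.card * Real.exp (q * (1 + 1 ^ 2) * C'.card - 1 * (a - T.card)) ≤
        q ^ T.card * Real.exp (T.card + (2 * q * C.card - a)) := by
        apply mul_le_mul_of_nonneg_left _ (by positivity)
        apply Real.exp_le_exp.2
        have h8 : (C'.card : ℝ) ≤ C.card := by exact_mod_cast hcC
        have := mul_le_mul_of_nonneg_left h8 hq0
        linarith
    _ = q ^ T.card * Real.exp (T.card : ℝ) * Real.exp (2 * q * C.card - a) := by
        rw [Real.exp_add]; ring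
    _ ≤ q ^ T.card * 3 ^ T.card * Real.exp (2 * q * C.card - a) := by gcongr
    _ = _ := by rw [mul_pow]; ring

/-- lower tail -/
theorem prob_lower (hq0 : 0 ≤ q) (hq1 : q ≤ 1) {D : Finset ℕ} (hD : D ⊆ W) :
    prob W q (fun R => ((R ∩ D).card : ℝ) < q * D.card / 2) ≤ Real.exp (-(q * D.card / 16)) := by
  classical
  rw [prob_rp]
  have hc : (D.subtype (fun x => x ∈ W)).card = D.card := by
    rw [card_subtype, filter_true_of_mem (fun x hx => hD hx)]
  have h1 := lower (D.subtype (fun x => x ∈ W)) hq0 hq1 (l := 1 / 4) (a := q * D.card / 2)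
    (by norm_num) (by norm_num)
  simp_rw [map_inter_card]
  refine h1.trans (Real.exp_le_exp.2 ?_)
  rw [hc]
  apply le_of_eq
  ring

/-- the expected number of fingerprints -/
theorem prob_markov {ι : Type} [DecidableEq ι] (hq0 : 0 ≤ q) (hq1 : q ≤ 1)
    (Z : Finset ι) (T : ι → Finset ℕ) (k : ℕ) (hT : ∀ z ∈ Z, (T z).card = k ∧ T z ⊆ W) {a : ℝ}
    (ha : 0 < a) :
    prob W q (fun R => a ≤ ((Z.filter fun z => T z ⊆ R).card : ℝ)) ≤ Z.card * q ^ k / a := by
  classical
  rw [prob_rp]
  have h1 := markov_count (V := {x // x ∈ W}) hq0 hq1 Z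
    (fun z => (T z).subtype (fun x => x ∈ W)) k (fun z hz => by
      rw [card_subtype, filter_true_of_mem (fun x hx => (hT z hz).2 hx)]
      exact (hT z hz).1) ha
  refine le_trans (rp_mono hq0 hq1 ?_) h1
  intro R hR
  refine hR.trans ?_
  have h2 : (Z.filter fun z => T z ⊆ R.map (Function.Embedding.subtype _)) ⊆
      Z.filter fun z => (T z).subtype (fun x => x ∈ W) ⊆ R := by
    intro z hz
    rw [mem_filter] at hz ⊢
    refine ⟨hz.1, fun x hx => ?_⟩
    rw [mem_subtype] at hx
    obtain ⟨y, hy, hy'⟩ := mem_map.1 (hz.2 hx)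
    have : y = x := Subtype.ext hy'
    rwa [← this]
  exact_mod_cast card_le_card h2

end Pool.Agent.L5helper45.IN
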