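import Pool.Agent.L5helper45.IN.Prob

set_option autoImplicit false

/-! # Counting and random subsets: upper bounds (helper45) -/

namespace Pool.Agent.L5helper45.IN

open Finset
open Pool.Agent.H617R3.AP Pool.Agent.TH106.AP3
open Pool.Agent.L5helper45.CT (HG IndE)
open Pool.Agent.L5helper45.WC (SSy WCov witer)

/-- containers with fingerprints for the progression-free subsets of `{1, …, N}` -/
theorem int_wcov {k : ℕ} (hk : 3 ≤ k) : ∃ K₁ C : ℝ, 1 ≤ K₁ ∧ 0 < C ∧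
    ∀ (N m : ℕ) (ϱ p : ℝ), 1 ≤ m → m ≤ N → 0 < ϱ →
      ((N : ℝ) / m) ^ (-(1 / ((k : ℝ) - 1))) ≤ ϱ → 0 ≤ p → p ≤ 3 * ϱ →
      WCov p ∅ (fun I => I ⊆ Icc 1 N ∧ APFree k I) (Icc 1 N)
        (Real.exp (C * (ϱ * (N * r k m / m)))) (K₁ * (N * r k m / m)) := by
  have hk3 : (3 : ℝ) ≤ k := by exact_mod_cast hk
  obtain ⟨K₀, hK₀, hSS⟩ := SSy_EI hk (g := 2 * (k : ℝ)) (by linarith)
  obtain ⟨K₁, C, hK₁, hC, h⟩ := witer k hk (c := (k : ℝ) ^ 2) (a := 1) (g := 2 * (k : ℝ))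
    (K₀ := K₀) (η := 1) (by nlinarith) one_pos hK₀ one_pos (by linarith)
  refine ⟨K₁, C, hK₁, hC, fun N m ϱ p hm hmN hϱ hy hp0 hp => ?_⟩
  have hm0 : (0 : ℝ) < m := by exact_mod_cast hm
  have hN0 : (0 : ℝ) < N := by exact_mod_cast hm.trans hmN
  have hr : (1 : ℝ) ≤ r k m := by
    have h1 := r_pos hk hm
    exact_mod_cast h1
  have hNm : (1 : ℝ) ≤ (N : ℝ) / m := by
    rw [one_le_div hm0]
    exact_mod_cast hmN
  have hs : (1 : ℝ) ≤ N * r k m / m := by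
    have : (N : ℝ) * r k m / m = (N / m) * r k m := by ring
    rw [this]
    nlinarith
  have h1 := h (EI k N) (Icc 1 N) (N * r k m / m) ((N : ℝ) / m) ϱ p (HG_EI (by omega) N) hs hNm hϱ hy
    hp0 hp (hSS N m hm hmN) K₁ le_rfl ∅
  refine h1.mono (fun I _ hI => ⟨hI.1, ind_of_free hI.2⟩) (Real.exp_le_exp.2 ?_) le_rfl
  have h2 : K₁ ^ (-(1 : ℝ)) ≤ 1 := Real.rpow_le_one_of_one_le_of_nonpos hK₁ (by norm_num)
  have h3 : 0 ≤ C * (ϱ * (N * r k m / m)) := by positivity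
  exact mul_le_of_le_one_right h3 h2

/-- the parameters -/
theorem params {k : ℕ} (hk : 3 ≤ k) {N : ℕ} {q : ℝ} (hq0 : 0 < q) (hq1 : q ≤ 1)
    (hx : 1 ≤ q ^ (k - 1) * N) :
    1 ≤ ⌊q ^ (k - 1) * N⌋₊ ∧ ⌊q ^ (k - 1) * N⌋₊ ≤ N ∧
    ((N : ℝ) / ⌊q ^ (k - 1) * N⌋₊) ^ (-(1 / ((k : ℝ) - 1))) ≤ q ∧
    q * (N * r k ⌊q ^ (k - 1) * N⌋₊ / ⌊q ^ (k - 1) * N⌋₊) ≤
      2 * (r k ⌊q ^ (k - 1) * N⌋₊ / q ^ (k - 2)) := by
  have hk3 : (3 : ℝ) ≤ k := by exact_mod_cast hk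
  have hqk : 0 < q ^ (k - 1) := by positivity
  have hx0 : 0 ≤ q ^ (k - 1) * N := by linarith
  set m : ℕ := ⌊q ^ (k - 1) * N⌋₊ with hm
  have h1 : 1 ≤ m := (Nat.one_le_floor_iff _).2 hx
  have hm0 : (0 : ℝ) < m := by exact_mod_cast h1
  have h2 : (m : ℝ) ≤ q ^ (k - 1) * N := Nat.floor_le hx0
  have h3 : q ^ (k - 1) * N / 2 ≤ m := by
    have := Nat.lt_floor_add_one (q ^ (k - 1) * N)
    rw [← hm] at this
    have h4 : (1 : ℝ) ≤ m := by exact_mod_cast h1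
    linarith
  have hN0 : (0 : ℝ) < N := by
    rcases Nat.eq_zero_or_pos N with h | h
    · rw [h] at hx
      norm_num at hx
    · exact_mod_cast h
  have h5 : q ^ (k - 1) ≤ 1 := pow_le_one₀ hq0.le hq1
  refine ⟨h1, ?_, ?_, ?_⟩
  · have : (m : ℝ) ≤ N := h2.trans (mul_le_of_le_one_left hN0.le h5)
    exact_mod_cast this
  · have h6 : (q ^ (k - 1))⁻¹ ≤ (N : ℝ) / m := by
      rw [inv_eq_one_div, div_le_div_iff₀ hqk hm0]
      linarith
    have h7 : ((N : ℝ) / m) ^ (-(1 / ((k : ℝ) - 1))) ≤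
        ((q ^ (k - 1))⁻¹) ^ (-(1 / ((k : ℝ) - 1))) :=
      Real.rpow_le_rpow_of_nonpos (by positivity) h6 (by
        rw [neg_nonpos]
        exact div_nonneg zero_le_one (by linarith))
    refine h7.trans (le_of_eq ?_)
    rw [← Real.rpow_natCast, ← Real.rpow_neg hq0.le, ← Real.rpow_mul hq0.le,
      Nat.cast_sub (by omega)]
    push_cast
    have h8 : -((k : ℝ) - 1) * -(1 / ((k : ℝ) - 1)) = 1 := by
      have : (k : ℝ) - 1 ≠ 0 := by linarith
      field_simp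
    rw [h8, Real.rpow_one]
  · have hr0 : (0 : ℝ) ≤ r k m := Nat.cast_nonneg _
    have h9 : q ^ (k - 1) = q ^ (k - 2) * q := by
      rw [← pow_succ]
      congr 1
      omega
    have hqk2 : 0 < q ^ (k - 2) := by positivity
    have h10 : q * N / m ≤ 2 / q ^ (k - 2) := by
      rw [div_le_div_iff₀ hm0 hqk2]
      rw [h9] at h3
      linarith
    calc q * (N * r k m / m) = (q * N / m) * r k m := by ring
      _ ≤ (2 / q ^ (k - 2)) * r k m := mul_le_mul_of_nonneg_right h10 hr0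
      _ = _ := by ring

/-- random subsets have no large progression-free subsets -/
theorem rand_upper {k : ℕ} (hk : 3 ≤ k) : ∃ C : ℝ, 0 < C ∧ ∀ (N : ℕ) (q : ℝ), 0 < q → q ≤ 1 →
    1 ≤ q ^ (k - 1) * N →
    prob (Icc 1 N) q (fun R => ∃ A ⊆ R, APFree k A ∧
      C * (r k ⌊q ^ (k - 1) * N⌋₊ / q ^ (k - 2)) ≤ (A.card : ℝ)) ≤
      Real.exp (-(r k ⌊q ^ (k - 1) * N⌋₊ / q ^ (k - 2))) := by
  classical
  obtain ⟨K₁, C, hK₁, hC, h⟩ := int_wcov hk
  refine ⟨2 * (C + 2 * K₁) + 1, by positivity, fun N q hq0 hq1 hx => ?_⟩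
  obtain ⟨hm, hmN, hy, hqs⟩ := params hk hq0 hq1 hx
  set m : ℕ := ⌊q ^ (k - 1) * N⌋₊ with hmdef
  set F : ℝ := r k m / q ^ (k - 2) with hF
  have hF0 : 0 ≤ F := div_nonneg (Nat.cast_nonneg _) (by positivity)
  obtain ⟨𝓕, h1, h2, h3⟩ := h N m q (3 * q) hm hmN hq0 hy (by linarith) le_rfl
  set s : ℝ := N * r k m / m with hs
  set a : ℝ := (2 * (C + 2 * K₁) + 1) * F with ha
  have e1 : prob (Icc 1 N) q (fun R => ∃ A ⊆ R, APFree k A ∧ a ≤ (A.card : ℝ)) ≤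
      prob (Icc 1 N) q (fun R => ∃ z ∈ 𝓕, (z.1 ⊆ R ∧ a ≤ ((R ∩ z.2).card : ℝ))) := by
    apply prob_mono hq0.le hq1
    rintro R hR ⟨A, hAR, hA, hAc⟩
    obtain ⟨z, hz, hz1, hz2⟩ := h3 A (empty_subset _) ⟨hAR.trans hR, hA⟩
    refine ⟨z, hz, hz1.trans hAR, hAc.trans ?_⟩
    exact_mod_cast card_le_card (subset_inter hAR hz2)
  refine e1.trans ((prob_union hq0.le hq1 𝓕 _).trans ?_)
  have e2 : ∀ z ∈ 𝓕, prob (Icc 1 N) q (fun R => z.1 ⊆ R ∧ a ≤ ((R ∩ z.2).card : ℝ)) ≤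
      (3 * q) ^ (z.1 \ ∅).card * Real.exp (2 * q * (K₁ * s) - a) := by
    intro z hz
    refine (prob_tail hq0.le hq1 z.1 z.2 a).trans ?_
    rw [sdiff_empty]
    apply mul_le_mul_of_nonneg_left _ (by positivity)
    apply Real.exp_le_exp.2
    have := mul_le_mul_of_nonneg_left (h2 z hz).2.1 (show 0 ≤ 2 * q by linarith)
    linarith
  refine (sum_le_sum e2).trans ?_
  rw [← sum_mul]
  calc (∑ z ∈ 𝓕, (3 * q) ^ (z.1 \ ∅).card) * Real.exp (2 * q * (K₁ * s) - a) ≤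
        Real.exp (C * (q * s)) * Real.exp (2 * q * (K₁ * s) - a) :=
        mul_le_mul_of_nonneg_right h1 (Real.exp_pos _).le
    _ = Real.exp (C * (q * s) + (2 * q * (K₁ * s) - a)) := (Real.exp_add _ _).symm
    _ ≤ Real.exp (-F) := by
        apply Real.exp_le_exp.2
        have h4 : (C + 2 * K₁) * (q * s) ≤ (C + 2 * K₁) * (2 * F) :=
          mul_le_mul_of_nonneg_left hqs (by linarith)
        rw [ha]
        linarith

/-- the subsets of `C` of size `t` which contain `T` -/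
theorem slice {T C : Finset ℕ} {q : ℝ} (hq : 0 < q) (t : ℕ) :
    ((C.powerset.filter fun I => T ⊆ I ∧ I.card = t).card : ℝ) * q ^ t ≤
      q ^ T.card * Real.exp (q * C.card) := by
  classical
  have h1 : ((C.powerset.filter fun I => T ⊆ I ∧ I.card = t).card : ℝ) * q ^ t =
      ∑ I ∈ C.powerset.filter (fun I => T ⊆ I ∧ I.card = t), q ^ I.card := by
    rw [← nsmul_eq_mul, ← sum_const]
    refine sum_congr rfl fun I hI => ?_
    rw [(mem_filter.1 hI).2.2]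
  have h2 : ∑ I ∈ C.powerset.filter (fun I => T ⊆ I ∧ I.card = t), q ^ I.card =
      ∑ J ∈ (C.powerset.filter (fun I => T ⊆ I ∧ I.card = t)).image (fun I => I \ T),
        q ^ T.card * q ^ J.card := by
    rw [sum_image]
    · refine sum_congr rfl fun I hI => ?_
      have h3 := (mem_filter.1 hI).2.1
      rw [← pow_add]
      congr 1
      rw [card_sdiff_of_subset h3]
      have := card_le_card h3
      omega
    · intro I hI J hJ h
      have h3 := (mem_filter.1 (mem_coe.1 hI)).2.1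
      have h4 := (mem_filter.1 (mem_coe.1 hJ)).2.1
      simp only at h
      rw [← sdiff_union_of_subset h3, h, sdiff_union_of_subset h4]
  rw [h1, h2, ← mul_sum]
  apply mul_le_mul_of_nonneg_left _ (by positivity)
  calc ∑ J ∈ (C.powerset.filter (fun I => T ⊆ I ∧ I.card = t)).image (fun I => I \ T),
        q ^ J.card ≤ ∑ J ∈ C.powerset, q ^ J.card := by
        apply sum_le_sum_of_subset_of_nonneg
        · intro J hJ
          obtain ⟨I, hI, rfl⟩ := mem_image.1 hJ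
          rw [mem_powerset]
          exact sdiff_subset.trans (mem_powerset.1 (mem_filter.1 hI).1)
        · intro J _ _
          positivity
    _ = (q + 1) ^ C.card := by
        rw [← sum_pow_mul_eq_add_pow]
        simp
    _ ≤ (Real.exp q) ^ C.card := pow_le_pow_left₀ (by positivity) (Real.add_one_le_exp q) _
    _ = Real.exp (q * C.card) := by rw [← Real.exp_nat_mul, mul_comm]

open Classical in
/-- counting by size -/
theorem count_upper {k : ℕ} (hk : 3 ≤ k) : ∃ C : ℝ, 0 < C ∧ ∀ (N : ℕ) (q : ℝ) (t : ℕ), 0 < q →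
    q ≤ 1 → 1 ≤ q ^ (k - 1) * N →
    (((Icc 1 N).powerset.filter (fun A => APFree k A ∧ A.card = t)).card : ℝ) * q ^ t ≤
      Real.exp (C * (r k ⌊q ^ (k - 1) * N⌋₊ / q ^ (k - 2))) := by
  obtain ⟨K₁, C, hK₁, hC, h⟩ := int_wcov hk
  refine ⟨2 * (C + K₁), by positivity, fun N q t hq0 hq1 hx => ?_⟩
  obtain ⟨hm, hmN, hy, hqs⟩ := params hk hq0 hq1 hx
  set m : ℕ := ⌊q ^ (k - 1) * N⌋₊ with hmdef
  set F : ℝ := r k m / q ^ (k - 2) with hF
  obtain ⟨𝓕, h1, h2, h3⟩ := h N m q q hm hmN hq0 hy hq0.le (by linarith)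
  set s : ℝ := N * r k m / m with hs
  have e1 : (Icc 1 N).powerset.filter (fun A => APFree k A ∧ A.card = t) ⊆
      𝓕.biUnion fun z => z.2.powerset.filter fun I => z.1 ⊆ I ∧ I.card = t := by
    intro A hA
    rw [mem_filter, mem_powerset] at hA
    obtain ⟨z, hz, hz1, hz2⟩ := h3 A (empty_subset _) ⟨hA.1, hA.2.1⟩
    exact mem_biUnion.2 ⟨z, hz, mem_filter.2 ⟨mem_powerset.2 hz2, hz1, hA.2.2⟩⟩
  have e2 : (((Icc 1 N).powerset.filter (fun A => APFree k A ∧ A.card = t)).card : ℝ) ≤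
      ∑ z ∈ 𝓕, ((z.2.powerset.filter fun I => z.1 ⊆ I ∧ I.card = t).card : ℝ) := by
    exact_mod_cast (card_le_card e1).trans card_biUnion_le
  have hqt : 0 ≤ q ^ t := by positivity
  refine (mul_le_mul_of_nonneg_right e2 hqt).trans ?_
  rw [sum_mul]
  have e3 : ∀ z ∈ 𝓕, ((z.2.powerset.filter fun I => z.1 ⊆ I ∧ I.card = t).card : ℝ) * q ^ t ≤
      q ^ (z.1 \ ∅).card * Real.exp (q * (K₁ * s)) := by
    intro z hz
    refine (slice hq0 t).trans ?_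
    rw [sdiff_empty]
    apply mul_le_mul_of_nonneg_left _ (by positivity)
    exact Real.exp_le_exp.2 (mul_le_mul_of_nonneg_left (h2 z hz).2.1 hq0.le)
  refine (sum_le_sum e3).trans ?_
  rw [← sum_mul]
  calc (∑ z ∈ 𝓕, q ^ (z.1 \ ∅).card) * Real.exp (q * (K₁ * s)) ≤
        Real.exp (C * (q * s)) * Real.exp (q * (K₁ * s)) :=
        mul_le_mul_of_nonneg_right h1 (Real.exp_pos _).le
    _ = Real.exp (C * (q * s) + q * (K₁ * s)) := (Real.exp_add _ _).symm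
    _ ≤ _ := by
        apply Real.exp_le_exp.2
        have h4 : (C + K₁) * (q * s) ≤ (C + K₁) * (2 * F) :=
          mul_le_mul_of_nonneg_left hqs (by linarith)
        linarith

open Classical in
/-- the total number -/
theorem count_all {k : ℕ} (hk : 3 ≤ k) : ∃ C : ℕ, ∀ N : ℕ,
    ((Icc 1 N).powerset.filter (fun A => APFree k A)).card ≤ 2 ^ (C * r k N) := by
  obtain ⟨K₁, C, hK₁, hC, h⟩ := int_wcov hk
  refine ⟨⌈C * 2⌉₊ + ⌈K₁⌉₊, fun N => ?_⟩
  rcases Nat.eq_zero_or_pos N with hN | hN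
  · subst hN
    rw [r_zero, mul_zero, pow_zero]
    refine (Finset.card_filter_le _ _).trans ?_
    simp
  have hN0 : (0 : ℝ) < N := by exact_mod_cast hN
  obtain ⟨𝓕, h1, h2, h3⟩ := h N N 1 1 hN le_rfl one_pos (by
    rw [div_self hN0.ne', Real.one_rpow]) zero_le_one (by norm_num)
  have hs : (N : ℝ) * r k N / N = r k N := by field_simp
  rw [hs] at h1 h2
  simp only [one_pow, sum_const, nsmul_eq_mul, mul_one, one_mul] at h1
  set s : ℕ := r k N with hsdef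
  have e1 : ((Icc 1 N).powerset.filter (fun A => APFree k A)).card ≤
      ∑ z ∈ 𝓕, z.2.powerset.card := by
    refine (card_le_card ?_).trans (card_biUnion_le)
    intro A hA
    rw [mem_filter, mem_powerset] at hA
    obtain ⟨z, hz, hz1, hz2⟩ := h3 A (empty_subset _) ⟨hA.1, hA.2⟩
    exact mem_biUnion.2 ⟨z, hz, mem_powerset.2 hz2⟩
  have e2 : ∑ z ∈ 𝓕, z.2.powerset.card ≤ ∑ _z ∈ 𝓕, 2 ^ (⌈K₁⌉₊ * s) := by
    refine sum_le_sum fun z hz => ?_
    rw [card_powerset]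
    apply Nat.pow_le_pow_right (by norm_num)
    have e3 : (z.2.card : ℝ) ≤ (⌈K₁⌉₊ : ℝ) * s :=
      (h2 z hz).2.1.trans (mul_le_mul_of_nonneg_right (Nat.le_ceil _) (Nat.cast_nonneg _))
    exact_mod_cast e3
  rw [sum_const, smul_eq_mul] at e2
  have e4 : 𝓕.card ≤ 2 ^ (⌈C * 2⌉₊ * s) := by
    have e5 : (𝓕.card : ℝ) ≤ (2 : ℝ) ^ (⌈C * 2⌉₊ * s) := by
      refine h1.trans ?_
      have e7 : C * (s : ℝ) ≤ ((⌈C * 2⌉₊ * s : ℕ) : ℝ) * Real.log 2 := by
        have h8 : (1 / 2 : ℝ) ≤ Real.log 2 := by have := Real.log_two_gt_d9; linarith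
        have h9 : C * 2 ≤ (⌈C * 2⌉₊ : ℝ) := Nat.le_ceil _
        have h10 : (0 : ℝ) ≤ s := Nat.cast_nonneg _
        push_cast
        calc C * (s : ℝ) = (C * 2 * s) * (1 / 2) := by ring
          _ ≤ ((⌈C * 2⌉₊ : ℝ) * s) * Real.log 2 :=
            mul_le_mul (mul_le_mul_of_nonneg_right h9 h10) h8 (by norm_num) (by positivity)
      calc Real.exp (C * (s : ℝ)) ≤ Real.exp (((⌈C * 2⌉₊ * s : ℕ) : ℝ) * Real.log 2) :=
            Real.exp_le_exp.2 e7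
        _ = (2 : ℝ) ^ (⌈C * 2⌉₊ * s) := by rw [Real.exp_nat_mul, Real.exp_log (by norm_num)]
    exact_mod_cast e5
  calc _ ≤ _ := e1
    _ ≤ _ := e2
    _ ≤ 2 ^ (⌈C * 2⌉₊ * s) * 2 ^ (⌈K₁⌉₊ * s) := Nat.mul_le_mul_right _ e4
    _ = _ := by rw [← pow_add]; congr 1; ring

end Pool.Agent.L5helper45.IN
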