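import Pool.Agent.TH106.AP3
import Pool.Agent.L5helper45.WC.Step

set_option autoImplicit false

/-! # Many progressions in dense subsets of an interval (Varnavides), all scales (helper45) -/

namespace Pool.Agent.L5helper45.IN

open Finset
open Pool.Agent.H617R3.AP Pool.Agent.TH106.AP3

/-- the pairs `(a, d)` with `1 ≤ a, d ≤ N` and `a, a + d, …, a + (k-1) d` in `A` -/
def aps (k N : ℕ) (A : Finset ℕ) : Finset (ℕ × ℕ) :=
  (Icc 1 N ×ˢ Icc 1 N).filter fun z => ∀ i < k, z.1 + i * z.2 ∈ A

theorem mem_aps' {k N : ℕ} {A : Finset ℕ} {z : ℕ × ℕ} :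
    z ∈ aps k N A ↔ (z.1 ∈ Icc 1 N ∧ z.2 ∈ Icc 1 N) ∧ ∀ i < k, z.1 + i * z.2 ∈ A := by
  unfold aps
  rw [mem_filter, mem_product]

theorem mem_aps_of {k N : ℕ} (hk : 2 ≤ k) {A : Finset ℕ} (hA : A ⊆ Icc 1 N) {a d : ℕ} (hd : 1 ≤ d)
    (h : ∀ i < k, a + i * d ∈ A) : (a, d) ∈ aps k N A := by
  have h0 := mem_Icc.1 (hA (h 0 (by omega)))
  have h1 := mem_Icc.1 (hA (h 1 (by omega)))
  rw [mem_aps']
  refine ⟨⟨mem_Icc.2 ⟨by omega, by omega⟩, mem_Icc.2 ⟨hd, by omega⟩⟩, h⟩

/-- deletion in an initial segment -/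
theorem del {k : ℕ} (hk : 2 ≤ k) {m : ℕ} {S : Finset ℕ} (hS : S ⊆ range m) :
    S.card ≤ r k m + (((range m ×ˢ range m).filter
      fun z => 1 ≤ z.2 ∧ ∀ i < k, z.1 + i * z.2 ∈ S)).card := by
  classical
  set Q := (range m ×ˢ range m).filter fun z => 1 ≤ z.2 ∧ ∀ i < k, z.1 + i * z.2 ∈ S with hQ
  set S' := S \ Q.image Prod.fst with hS'
  have h1 : S'.card ≤ r k m := by
    rw [← card_image_of_injective S' (f := fun n => n + 1) (fun a b h => by simpa using h)]
    refine card_le_r ?_ ?_
    · intro n hn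
      obtain ⟨x, hx, rfl⟩ := mem_image.1 hn
      have := mem_range.1 (hS (mem_sdiff.1 hx).1)
      rw [mem_Icc]; omega
    · intro a d hd h
      have hx : ∀ i < k, a - 1 + i * d ∈ S' ∧ 1 ≤ a := by
        intro i hi
        have ha := h 0 (by omega)
        rw [zero_mul, add_zero] at ha
        obtain ⟨y, hy, hy'⟩ := mem_image.1 ha
        obtain ⟨x, hx, hx'⟩ := mem_image.1 (h i hi)
        have : a - 1 + i * d = x := by omega
        rw [this]
        exact ⟨hx, by omega⟩
      have h0 := (mem_sdiff.1 (hx 0 (by omega)).1)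
      rw [zero_mul, add_zero] at h0
      apply h0.2
      rw [mem_image]
      refine ⟨(a - 1, d), ?_, rfl⟩
      rw [hQ, mem_filter, mem_product, mem_range, mem_range]
      have h2 := mem_range.1 (hS (mem_sdiff.1 (hx 1 (by omega)).1).1)
      exact ⟨⟨mem_range.1 (hS h0.1), by omega⟩, hd, fun i hi => (mem_sdiff.1 (hx i hi).1).1⟩
  have h2 : S.card ≤ S'.card + (Q.image Prod.fst).card := card_le_card_sdiff_add_card
  have h3 : (Q.image Prod.fst).card ≤ Q.card := card_image_le
  omega

section zmod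

variable {q : ℕ} [hq : Fact q.Prime]

/-- progressions modulo `q` -/
noncomputable def TT (k q : ℕ) [Fact q.Prime] (A : Finset ℕ) : Finset (ZMod q × ZMod q) := by
  classical
  exact univ.filter fun z => z.2 ≠ 0 ∧ ∀ i < k, (z.1 + (i : ZMod q) * z.2).val ∈ A

theorem mem_TT {k : ℕ} {A : Finset ℕ} {z : ZMod q × ZMod q} :
    z ∈ TT k q A ↔ z.2 ≠ 0 ∧ ∀ i < k, (z.1 + (i : ZMod q) * z.2).val ∈ A := by
  unfold TT
  rw [mem_filter]
  simp

/-- progressions modulo `q > 2 N` are genuine -/
theorem TT_le {k N : ℕ} (hk : 2 ≤ k) (hqN : 2 * N < q) {A : Finset ℕ} (hA : A ⊆ Icc 1 N) :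
    (TT k q A).card ≤ 2 * (aps k N A).card := by
  classical
  have h1 : TT k q A ⊆ (aps k N A ×ˢ (univ : Finset Bool)).image fun w =>
      if w.2 then ((w.1.1 : ZMod q), (w.1.2 : ZMod q)) else
        (((w.1.1 + (k - 1) * w.1.2 : ℕ) : ZMod q), -(w.1.2 : ZMod q)) := by
    rintro ⟨b, e⟩ hz
    obtain ⟨he, hz2⟩ := mem_TT.1 hz
    simp only at he hz2
    set y : ℕ → ℕ := fun i => (b + (i : ZMod q) * e).val with hy
    have hyA : ∀ i < k, y i ∈ A := hz2
    have hyN : ∀ i < k, 1 ≤ y i ∧ y i ≤ N := fun i hi => mem_Icc.1 (hA (hyA i hi))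
    have hycast : ∀ i, ((y i : ℕ) : ZMod q) = b + (i : ZMod q) * e := fun i =>
      ZMod.natCast_zmod_val _
    have hlin : ∀ i, i < k → (y i : ℤ) = y 0 + i * ((y 1 : ℤ) - y 0) := by
      refine linear (fun i => (y i : ℤ)) fun i hi => ?_
      have h2 : ((y i + y (i + 2) : ℕ) : ZMod q) = ((2 * y (i + 1) : ℕ) : ZMod q) := by
        push_cast
        rw [hycast, hycast, hycast]
        push_cast
        ring
      rw [ZMod.natCast_eq_natCast_iff'] at h2
      have h3 := hyN i (by omega)
      have h4 := hyN (i + 1) (by omega)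
      have h5 := hyN (i + 2) (by omega)
      rw [Nat.mod_eq_of_lt (by omega), Nat.mod_eq_of_lt (by omega)] at h2
      exact_mod_cast h2
    have hne : y 0 ≠ y 1 := by
      intro h
      have h2 := hycast 0
      have h3 := hycast 1
      rw [h, h3] at h2
      simp only [Nat.cast_zero, Nat.cast_one, zero_mul, one_mul, add_zero] at h2
      exact he (by simpa using h2)
    have hb : ((y 0 : ℕ) : ZMod q) = b := by
      have := hycast 0
      simpa using this
    have he1 : ((y 1 : ℕ) : ZMod q) = b + e := by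
      have := hycast 1
      simpa using this
    rw [mem_image]
    rcases lt_or_gt_of_ne hne with h | h
    · refine ⟨((y 0, y 1 - y 0), true), ?_, ?_⟩
      · rw [mem_product]
        refine ⟨mem_aps_of hk hA (by omega) fun i hi => ?_, mem_univ _⟩
        have h2 : y 0 + i * (y 1 - y 0) = y i := by
          have h3 : ((y 0 + i * (y 1 - y 0) : ℕ) : ℤ) = y i := by
            rw [hlin i hi]
            push_cast [Nat.cast_sub h.le]
            ring
          exact_mod_cast h3
        rw [h2]
        exact hyA i hi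
      · simp only [if_true]
        rw [Nat.cast_sub h.le, hb, he1, add_sub_cancel_left]
    · refine ⟨((y (k - 1), y 0 - y 1), false), ?_, ?_⟩
      · rw [mem_product]
        refine ⟨mem_aps_of hk hA (by omega) fun i hi => ?_, mem_univ _⟩
        have h2 : y (k - 1) + i * (y 0 - y 1) = y (k - 1 - i) := by
          have h3 : ((y (k - 1) + i * (y 0 - y 1) : ℕ) : ℤ) = y (k - 1 - i) := by
            rw [hlin (k - 1 - i) (by omega)]
            push_cast [Nat.cast_sub h.le]
            rw [hlin (k - 1) (by omega)]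
            have h5 : ((k - 1 - i : ℕ) : ℤ) = ((k - 1 : ℕ) : ℤ) - i := by omega
            rw [h5]
            ring
          exact_mod_cast h3
        rw [h2]
        exact hyA _ (by omega)
      · simp only [Bool.false_eq_true, if_false]
        have h2 : y (k - 1) + (k - 1) * (y 0 - y 1) = y 0 := by
          have h3 : ((y (k - 1) + (k - 1) * (y 0 - y 1) : ℕ) : ℤ) = y 0 := by
            push_cast [Nat.cast_sub h.le]
            rw [hlin (k - 1) (by omega)]
            ring
          exact_mod_cast h3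
        rw [h2, hb, Nat.cast_sub h.le, hb, he1]
        congr 1
        ring
  calc (TT k q A).card ≤ _ := card_le_card h1
    _ ≤ _ := card_image_le
    _ = 2 * (aps k N A).card := by
      rw [card_product, card_univ, Fintype.card_bool, mul_comm]

theorem val_count {A : Finset ℕ} (hA : ∀ a ∈ A, a < q) :
    ((univ : Finset (ZMod q)).filter fun z => z.val ∈ A).card = A.card := by
  classical
  refine card_bij' (fun z _ => z.val) (fun a _ => (a : ZMod q)) ?_ ?_ ?_ ?_
  · intro z hz
    exact (mem_filter.1 hz).2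
  · intro a ha
    rw [mem_filter]
    exact ⟨mem_univ _, by rwa [ZMod.val_cast_of_lt (hA a ha)]⟩
  · intro z _
    exact ZMod.natCast_zmod_val z
  · intro a ha
    exact ZMod.val_cast_of_lt (hA a ha)

theorem vary_mod {k : ℕ} (hk : 2 ≤ k) {m : ℕ} (hmq : m ≤ q) {A : Finset ℕ}
    (hA : ∀ a ∈ A, a < q) :
    m * ((q - 1) * A.card) ≤ q * (q - 1) * r k m + m * m * (TT k q A).card := by
  classical
  set X : Finset (ZMod q × ZMod q) := univ ×ˢ (univ.erase 0) with hX
  have hXc : X.card = q * (q - 1) := by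
    rw [hX, card_product, card_erase_of_mem (mem_univ _), card_univ, ZMod.card]
  set S : ZMod q × ZMod q → Finset ℕ := fun z =>
    (range m).filter fun x => (z.1 + (x : ZMod q) * z.2).val ∈ A with hS
  have h1 : ∑ z ∈ X, (S z).card = m * ((q - 1) * A.card) := by
    have e1 : ∀ z ∈ X, (S z).card = ∑ x ∈ range m,
        if (z.1 + (x : ZMod q) * z.2).val ∈ A then 1 else 0 := by
      intro z _
      rw [hS]
      simp only
      rw [card_filter]
    rw [sum_congr rfl e1, sum_comm]
    have e2 : ∀ x ∈ range m, ∑ z ∈ X, (if (z.1 + (x : ZMod q) * z.2).val ∈ A then 1 else 0) =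
        (q - 1) * A.card := by
      intro x _
      rw [hX, sum_product_right]
      have e3 : ∀ d ∈ (univ : Finset (ZMod q)).erase 0,
          ∑ a : ZMod q, (if (a + (x : ZMod q) * d).val ∈ A then 1 else 0) = A.card := by
        intro d _
        rw [← card_filter, ← val_count hA]
        refine card_bij' (fun a _ => a + (x : ZMod q) * d) (fun a _ => a - (x : ZMod q) * d)
          ?_ ?_ ?_ ?_
        · intro a ha
          exact mem_filter.2 ⟨mem_univ _, (mem_filter.1 ha).2⟩
        · intro a ha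
          refine mem_filter.2 ⟨mem_univ _, ?_⟩
          rw [sub_add_cancel]
          exact (mem_filter.1 ha).2
        · intro a _
          exact add_sub_cancel_right _ _
        · intro a _
          exact sub_add_cancel _ _
      rw [sum_congr rfl e3, sum_const, card_erase_of_mem (mem_univ _), card_univ, ZMod.card,
        smul_eq_mul]
    rw [sum_congr rfl e2, sum_const, card_range, smul_eq_mul]
  have h2 : ∑ z ∈ X, (S z).card ≤ ∑ z ∈ X, (r k m + ((range m ×ˢ range m).filter
      fun w => 1 ≤ w.2 ∧ ∀ i < k, w.1 + i * w.2 ∈ S z).card) :=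
    sum_le_sum fun z _ => del hk (filter_subset _ _)
  have h3 : ∑ z ∈ X, ((range m ×ˢ range m).filter
      fun w => 1 ≤ w.2 ∧ ∀ i < k, w.1 + i * w.2 ∈ S z).card ≤ m * m * (TT k q A).card := by
    have e1 : ∀ z ∈ X, ((range m ×ˢ range m).filter
        fun w => 1 ≤ w.2 ∧ ∀ i < k, w.1 + i * w.2 ∈ S z).card =
        ∑ w ∈ range m ×ˢ range m,
          if (1 ≤ w.2 ∧ ∀ i < k, w.1 + i * w.2 ∈ S z) then 1 else 0 := fun z _ => card_filter _ _
    rw [sum_congr rfl e1, sum_comm]
    have e2 : ∀ w ∈ range m ×ˢ range m,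
        (∑ z ∈ X, if (1 ≤ w.2 ∧ ∀ i < k, w.1 + i * w.2 ∈ S z) then 1 else 0) ≤
          (TT k q A).card := by
      rintro ⟨x, v⟩ hw
      rw [mem_product, mem_range, mem_range] at hw
      simp only at hw ⊢
      by_cases hv : 1 ≤ v
      swap
      · rw [sum_eq_zero]
        · exact Nat.zero_le _
        · intro z _
          rw [if_neg (fun h => hv h.1)]
      have hv0 : (v : ZMod q) ≠ 0 := by
        intro h
        rw [ZMod.natCast_eq_zero_iff] at h
        have := Nat.le_of_dvd (by omega) h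
        omega
      rw [← card_filter]
      refine card_le_card_of_injOn (fun z => (z.1 + (x : ZMod q) * z.2, (v : ZMod q) * z.2)) ?_ ?_
      · rintro ⟨a, d⟩ hz
        rw [mem_coe, mem_filter, hX, mem_product, mem_erase] at hz
        obtain ⟨⟨-, hd, -⟩, -, hz2⟩ := hz
        rw [mem_coe, mem_TT]
        refine ⟨mul_ne_zero hv0 hd, fun i hi => ?_⟩
        have h4 := (mem_filter.1 (hz2 i hi)).2
        simp only at h4 ⊢
        push_cast at h4
        have h5 : a + (x : ZMod q) * d + (i : ZMod q) * ((v : ZMod q) * d) =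
            a + ((x : ZMod q) + (i : ZMod q) * (v : ZMod q)) * d := by ring
        rw [h5]
        exact h4
      · rintro ⟨a, d⟩ _ ⟨a', d'⟩ _ h
        simp only [Prod.mk.injEq] at h
        have h4 : d = d' := mul_left_cancel₀ hv0 h.2
        subst h4
        rw [add_right_cancel h.1]
    refine (sum_le_sum e2).trans (le_of_eq ?_)
    rw [sum_const, card_product, card_range, smul_eq_mul]
  rw [h1, sum_add_distrib, sum_const, hXc, smul_eq_mul] at h2
  omega

end zmod

/-- **Varnavides' theorem at all scales** -/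
theorem vary {k : ℕ} (hk : 2 ≤ k) {N m : ℕ} (hN : 1 ≤ N) (hm : 1 ≤ m) (hmN : m ≤ N)
    {A : Finset ℕ} (hA : A ⊆ Icc 1 N) (h : 8 * N * r k m ≤ m * A.card) :
    N * A.card ≤ 2 * m * (aps k N A).card := by
  obtain ⟨q, hq, hq1, hq2⟩ := Nat.exists_prime_lt_and_le_two_mul (2 * N) (by omega)
  haveI : Fact q.Prime := ⟨hq⟩
  have hAq : ∀ a ∈ A, a < q := fun a ha => by
    have := mem_Icc.1 (hA ha)
    omega
  have h1 := vary_mod hk (q := q) (m := m) (by omega) hAq
  have h2 := TT_le (q := q) hk hq1 hA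
  have h3 : 2 * (q * r k m) ≤ m * A.card := by
    calc 2 * (q * r k m) ≤ 2 * ((2 * (2 * N)) * r k m) := by gcongr
      _ = 8 * N * r k m := by ring
      _ ≤ _ := h
  have hq0 : 1 ≤ q - 1 := by omega
  have h4 : 2 * (q * (q - 1) * r k m) ≤ m * ((q - 1) * A.card) := by
    calc 2 * (q * (q - 1) * r k m) = (q - 1) * (2 * (q * r k m)) := by ring
      _ ≤ (q - 1) * (m * A.card) := Nat.mul_le_mul_left _ h3
      _ = _ := by ring
  have h5 : m * ((q - 1) * A.card) ≤ 2 * (m * m * (TT k q A).card) := by omega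
  have h6 : m * ((q - 1) * A.card) ≤ m * (2 * (m * (2 * (aps k N A).card))) := by
    calc m * ((q - 1) * A.card) ≤ 2 * (m * m * (TT k q A).card) := h5
      _ ≤ 2 * (m * m * (2 * (aps k N A).card)) := by gcongr
      _ = _ := by ring
  have h7 := Nat.le_of_mul_le_mul_left h6 (by omega)
  have h8 : 2 * N * A.card ≤ (q - 1) * A.card := Nat.mul_le_mul_right _ (by omega)
  nlinarith

end Pool.Agent.L5helper45.IN
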